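import Pool.Agent.Pancake.Main

/-!
# MP_771030_an: the weak sigma-attractor is the union of the `ω`-limit sets of the level sets
-/

namespace Pool.Agent.Results.MP_771030_an.PancakeAttractor

open Pancake Set

/-- For all `L, ν, g > 0` there is a (unique) solution operator `S(t)` of the semi-dissipative
Boussinesq system on data in `V × L²(Ω)`, and the weak sigma-attractor `𝒜` satisfies
`𝒜 = ⋃_{r ≥ 0} ω(B̃_r)`. With `mz` false the phase space is `H × L²(Ω)`; with `mz` true the
temperatures are moreover required to have mean zero. -/
theorem result (L ν g : ℝ) (hL : 0 < L) (hν : 0 < ν) (hg : 0 < g) (mz : Prop) :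
    ∃ S : ℝ → St L → St L, SolOp L ν g mz S ∧
      attractor L ν g mz = ⋃ r ∈ Ici (0 : ℝ), omegaLim L S (Btilde L ν g mz r) :=
  Pancake.main hL hν hg mz

end Pool.Agent.Results.MP_771030_an.PancakeAttractor
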